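import Pool.Agent.K.MP_386d8e_pr.C0

set_option autoImplicit false

open MeasureTheory Filter Pool.Agent.P.MP_386d8e_pr

namespace Pool.Agent.Results.MP_386d8e_pr.Fredholm

/-- The steady-state generating functions of the gated/1-limited polling system. -/
theorem result (P : Model) (h1 : 0 < P.l1) (h2 : 0 < P.l2)
    (hS : ¬ ((P.S1 : Measure NNReal) = Measure.dirac 0 ∧ (P.S2 : Measure NNReal) = Measure.dirac 0))
    (p1 p2 : PMF (ℕ × ℕ)) (hst : P.Steady p1 p2) :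
    (∃ C : ℝ, ∀ᶠ N : ℕ in atTop, (P.M N 1).det ≠ 0 ∧ ∀ x : ℂ, ‖x‖ ≤ 1 →
      ‖P.KN N x - pgf p2 x 0‖ ≤ C * (N + 1) * (P.l1 / (P.l1 + P.l2)) ^ N) ∧
    ∀ x y : ℂ, ‖x‖ ≤ 1 → ‖y‖ ≤ 1 → pgf p1 x y = P.F1 x y ∧ pgf p2 x y = P.F2 x y :=
  main P h1 h2 hS p1 p2 hst

end Pool.Agent.Results.MP_386d8e_pr.Fredholm
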