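import Pool.Agent.K.MP_386d8e_pr.C1

set_option autoImplicit false

open Pool.Agent.P.MP_386d8e_pr

namespace Pool.Agent.Results.MP_386d8e_pr.Poles

/-- Exponential service and switch-over times: the unknown function `K x = F2 (x, 0)` of the
gated/1-limited system has poles of strictly increasing order along a backward orbit of `h (·, 0)`;
hence it is not algebraic, not D-finite, and solves no linear iteration equation in `h (·, 0)`. -/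
theorem result (P : Model) (μ1 μ2 ν1 ν2 : ℝ) (hl1 : 0 < P.l1) (hl2 : 0 < P.l2)
    (hμ1 : 0 < μ1) (hμ2 : 0 < μ2) (hν1 : 0 < ν1) (hν2 : 0 < ν2)
    (hB1 : ∀ s : ℂ, 0 ≤ s.re → lst P.B1 s = μ1 / (μ1 + s))
    (hB2 : ∀ s : ℂ, 0 ≤ s.re → lst P.B2 s = μ2 / (μ2 + s))
    (hS1 : ∀ s : ℂ, 0 ≤ s.re → lst P.S1 s = ν1 / (ν1 + s))
    (hS2 : ∀ s : ℂ, 0 ≤ s.re → lst P.S2 s = ν2 / (ν2 + s))
    (p1 p2 : PMF (ℕ × ℕ)) (hst : P.Steady p1 p2)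
    (m X : ℝ) (hm : m = min μ2 (min ν1 ν2)) (hc : P.l1 * m < (P.l2 + m) * (μ1 - m))
    (hX : X = (μ1 + P.l1 + P.l2 + √((μ1 + P.l1 + P.l2) ^ 2 - 4 * P.l1 * μ1)) / (2 * P.l1))
    (p : ℕ → ℝ) (hp0 : p 0 = 1 + (P.l2 + m) / P.l1)
    (hp : ∀ j, p (j + 1) = (μ1 + P.l1 + P.l2 - μ1 / p j) / P.l1) :
    (∃ (K : ℂ → ℂ) (d : ℕ → ℕ), MeromorphicOn K (Metric.ball 0 X) ∧
      (∀ x : ℂ, ‖x‖ < 1 → K x = pgf p2 x 0) ∧ StrictMono d ∧ StrictMono p ∧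
      ∀ j, 1 < p j ∧ p j < X ∧ meromorphicOrderAt K (p j) = (-(d j : ℤ) : ℤ)) ∧
    ∀ (n : ℕ) (q : ℕ → ℂ → ℂ) (r : ℂ → ℂ), (∀ i, AnalyticOnNhd ℂ (q i) (Metric.closedBall 0 X)) →
      AnalyticOnNhd ℂ r (Metric.closedBall 0 X) →
      ((∀ x : ℂ, ‖x‖ < 1 → ∑ i ∈ Finset.range n, q i x * pgf p2 x 0 ^ (i + 1) = r x) ∨
        (∀ x : ℂ, ‖x‖ < 1 →
          ∑ i ∈ Finset.range n, q i x * iteratedDeriv i (fun z => pgf p2 z 0) x = r x) ∨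
        (∀ x : ℂ, ‖x‖ < 1 → ∑ i ∈ Finset.range n, q i x * pgf p2 ((P.h 0)^[i] x) 0 = r x)) →
      ∀ i < n, ∀ x : ℂ, ‖x‖ ≤ X → q i x = 0 :=
  Expo.final ⟨hl1, hl2, hμ1, hμ2, hν1, hν2, hB1, hB2, hS1, hS2⟩ hst hm hc hX hp0 hp

end Pool.Agent.Results.MP_386d8e_pr.Poles
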