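import Pool.Agent.K.MP_386d8e_pr.C2
import Pool.Agent.P.MP_386d8e_pr.ExC

set_option autoImplicit false

open MeasureTheory Pool.Agent.P.MP_386d8e_pr

namespace Pool.Agent.Results.MP_386d8e_pr.Solution

/-- The gated/1-limited polling system. Without switch-over times both generating functions are `1`.
Otherwise the boundary function is the unique continuous solution of a Fredholm integral equation of
the second kind on a circle, it is the quotient of two values of Fredholm's series, and both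
generating functions are explicit in it. -/
theorem result (P : Model) (h1 : 0 < P.l1) (h2 : 0 < P.l2) (p1 p2 : PMF (ℕ × ℕ)) (hst : P.Steady p1 p2) :
    ((P.S1 : Measure NNReal) = Measure.dirac 0 ∧ (P.S2 : Measure NNReal) = Measure.dirac 0 →
      ∀ x y : ℂ, ‖x‖ ≤ 1 → ‖y‖ ≤ 1 → pgf p1 x y = 1 ∧ pgf p2 x y = 1) ∧
    (¬ ((P.S1 : Measure NNReal) = Measure.dirac 0 ∧ (P.S2 : Measure NNReal) = Measure.dirac 0) →
      ∀ R : ℝ, 1 < R → P.l1 * R < P.l1 + P.l2 →
      ContinuousOn (fun w : ℂ × ℂ => P.ker w.1 w.2) (Metric.closedBall 0 R ×ˢ Metric.sphere 0 R) ∧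
      (∀ x : ℂ, ‖x‖ ≤ R → Summable fun n => ‖P.term R x n‖) ∧ P.E R 1 ≠ 0 ∧
      ContinuousOn (P.KF R) (Metric.closedBall 0 R) ∧
      (∀ f : ℂ → ℂ, ContinuousOn f (Metric.sphere 0 R) →
        ((∀ u : ℂ, ‖u‖ = R → f u = P.kappa +
            Real.circleAverage (fun v => (P.ker u v - P.ker 1 v) * f v) 0 R) ↔
          ∀ u : ℂ, ‖u‖ = R → f u = P.KF R u)) ∧
      ∀ x y : ℂ, ‖x‖ ≤ 1 → ‖y‖ ≤ 1 → pgf p2 x 0 = P.KF R x ∧ pgf p1 x y = P.sol (P.KF R) x y ∧
        pgf p2 x y = lst P.S1 (P.th x y) * P.sol (P.KF R) (P.h y x) y) :=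
  ⟨degenerate P h1 h2 p1 p2 hst, fun hS => solution P h1 h2 hS p1 p2 hst⟩

/-- `Steady` is stationarity of the chain of queue lengths at polling instants. From `(m, n)` at a polling
instant of the first queue, `m` services and one switch-over follow (kernel `k1`); from a polling instant of
the second queue, one service if that queue is not empty, and one switch-over (kernel `k2`). -/
theorem steady_iff_stationary (P : Model) (h1 : 0 < P.l1) (h2 : 0 < P.l2) :
    ∃ k1 k2 : ℕ × ℕ → PMF (ℕ × ℕ),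
      (∀ (m n : ℕ) (x y : ℂ), ‖x‖ ≤ 1 → ‖y‖ ≤ 1 →
        pgf (k1 (m, n)) x y = P.h y x ^ m * y ^ n * lst P.S1 (P.th x y) ∧
        pgf (k2 (m, 0)) x y = x ^ m * lst P.S2 (P.th x y) ∧
        pgf (k2 (m, n + 1)) x y = x ^ m * y ^ n * lst P.B2 (P.th x y) * lst P.S2 (P.th x y)) ∧
      ∀ p1 p2 : PMF (ℕ × ℕ), P.Steady p1 p2 ↔
        (∀ t, p2 t = ∑' s, p1 s * k1 s t) ∧ ∀ t, p1 t = ∑' s, p2 s * k2 s t := by
  simpa only [Ex.eq_bind] using Ex.stationary P h1 h2

/-- The hypothesis of `result` holds for some pair of laws exactly when there are no switch-over times, or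
the four means are finite and the load condition holds. -/
theorem steady_exists_iff (P : Model) (h1 : 0 < P.l1) (h2 : 0 < P.l2) :
    (∃ p1 p2 : PMF (ℕ × ℕ), P.Steady p1 p2) ↔
      ((P.S1 : Measure NNReal) = Measure.dirac 0 ∧ (P.S2 : Measure NNReal) = Measure.dirac 0) ∨
      (∫⁻ t, (t : ENNReal) ∂(P.B1 : Measure NNReal) < ⊤ ∧
        ∫⁻ t, (t : ENNReal) ∂(P.B2 : Measure NNReal) < ⊤ ∧
        ∫⁻ t, (t : ENNReal) ∂(P.S1 : Measure NNReal) < ⊤ ∧
        ∫⁻ t, (t : ENNReal) ∂(P.S2 : Measure NNReal) < ⊤ ∧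
        P.l1 * mean P.B1 + P.l2 * mean P.B2 + P.l2 * (mean P.S1 + mean P.S2) < 1) := by
  by_cases hS : (P.S1 : Measure NNReal) = Measure.dirac 0 ∧ (P.S2 : Measure NNReal) = Measure.dirac 0
  · exact ⟨fun _ => Or.inl hS, fun _ => ⟨_, _, Ex.steady_empty P hS⟩⟩
  · simp only [Ex.steady_iff P h1 h2 hS, Ex.int_iff, hS, false_or]

/-- The pair of laws is unique: a consequence of `result`. -/
theorem steady_unique (P : Model) (h1 : 0 < P.l1) (h2 : 0 < P.l2) (p1 p2 q1 q2 : PMF (ℕ × ℕ))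
    (hp : P.Steady p1 p2) (hq : P.Steady q1 q2) : p1 = q1 ∧ p2 = q2 := by
  have a := result P h1 h2 p1 p2 hp
  have b := result P h1 h2 q1 q2 hq
  by_cases hS : (P.S1 : Measure NNReal) = Measure.dirac 0 ∧ (P.S2 : Measure NNReal) = Measure.dirac 0
  · exact ⟨Ex.pmf_ext fun x y hx hy => (a.1 hS x y hx hy).1.trans (b.1 hS x y hx hy).1.symm,
      Ex.pmf_ext fun x y hx hy => (a.1 hS x y hx hy).2.trans (b.1 hS x y hx hy).2.symm⟩
  · have r1 : 1 < 1 + P.l2 / P.l1 / 2 := lt_add_of_pos_right _ (by positivity)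
    have r2 : P.l1 * (1 + P.l2 / P.l1 / 2) < P.l1 + P.l2 := by
      rw [show P.l1 * (1 + P.l2 / P.l1 / 2) = P.l1 + P.l2 / 2 by field_simp]
      linarith
    have a' := (a.2 hS _ r1 r2).2.2.2.2.2
    have b' := (b.2 hS _ r1 r2).2.2.2.2.2
    exact ⟨Ex.pmf_ext fun x y hx hy => (a' x y hx hy).2.1.trans (b' x y hx hy).2.1.symm,
      Ex.pmf_ext fun x y hx hy => (a' x y hx hy).2.2.trans (b' x y hx hy).2.2.symm⟩

end Pool.Agent.Results.MP_386d8e_pr.Solution
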